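import Pool.Agent.Q51.ZC.Stm
import Pool.Agent.Q26.SE.UNQ
import Pool.Agent.Q51.SE.Cl

/-!
# Project ZC (helper51), job SELF: finiteness of the Selmer group of the field
-/

set_option autoImplicit false

namespace Pool.Agent.Q86.ZC

open Polynomial NumberField IsDedekindDomain Finset
open Pool.Agent.Q51.EL Pool.Agent.Q51.SE Pool.Agent.Q51.ZC

theorem self : S_SELF := by
  classical
  intro L _ _ q hq B hB
  obtain ⟨B', C, hB', hC, hBB, h⟩ := Pool.Agent.Q51.SE.clq L q hq B hB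
  obtain ⟨C1, hC1, hu⟩ := Pool.Agent.Q26.SE.unq L q (by omega)
  have hfin := NumberField.Embeddings.finite_of_norm_le L ℂ
    (C1 * C ^ ((1 : ℝ) / Module.finrank ℚ L))
  refine ⟨hfin.toFinset, fun x hx hv => ?_⟩
  obtain ⟨η, α, hη, hα, -, hN⟩ := h x ∅ hx (by
    intro v hvB
    refine ⟨fun h0 => absurd h0 (Finset.notMem_empty v), fun _ => hv v ?_⟩
    intro hmem
    apply hvB
    obtain ⟨m, hm⟩ := hBB
    rw [hm, Nat.cast_mul]
    exact Ideal.mul_mem_right _ _ hmem)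
  rw [Finset.prod_empty, mul_one] at hN
  have hα0 : α ≠ 0 := by
    rintro rfl
    have : (0 : L) = x * η ^ q := by simpa using hα
    exact mul_ne_zero hx (pow_ne_zero q hη) this.symm
  obtain ⟨u, hu⟩ := hu α hα0
  have huL : ((u : 𝓞 L) : L) ≠ 0 := by
    intro h0
    have : (u : 𝓞 L) = 0 := by exact_mod_cast h0
    exact u.ne_zero this
  refine ⟨((α * (u : 𝓞 L) ^ q : 𝓞 L) : L), ?_, (η * ((u : 𝓞 L) : L))⁻¹, ?_, ?_⟩
  · rw [Set.Finite.mem_toFinset]
    refine ⟨RingOfIntegers.isIntegral_coe _, fun σ => (hu σ).trans ?_⟩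
    exact mul_le_mul_of_nonneg_left (Real.rpow_le_rpow (Nat.cast_nonneg _) hN (by positivity))
      hC1.le
  · exact inv_ne_zero (mul_ne_zero hη huL)
  · have e : ((α * (u : 𝓞 L) ^ q : 𝓞 L) : L) = (α : L) * ((u : 𝓞 L) : L) ^ q := rfl
    rw [e, hα, inv_pow, mul_pow]
    field_simp

end Pool.Agent.Q86.ZC
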