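import Pool.Agent.Q51.ZC.Stm
import Pool.Agent.Q51.SE.Cl

/-!
# Project ZC (helper51), jobs TWO and IND
-/

set_option autoImplicit false

namespace Pool.Agent.Q86.ZC

open Polynomial NumberField IsDedekindDomain Finset
open Pool.Agent.Q51.EL Pool.Agent.Q51.SE Pool.Agent.Q51.ZC Pool.Agent.Q239.EL

section
variable {L : Type} [Field L] [NumberField L]

lemma mem_ab {l : ℕ} (hl : l ≠ 0) {v : HeightOneSpectrum (𝓞 L)} : v ∈ ab L l ↔ Abv v l := by
  unfold ab
  rw [dif_pos (ab_finite hl)]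
  exact (ab_finite hl).mem_toFinset

lemma sum_dg {l : ℕ} (hl : l.Prime) (hs : Squarefree (Ideal.span {(l : 𝓞 L)})) :
    ∑ v ∈ ab L l, dg l v = Module.finrank ℚ L := by
  have : Fact l.Prime := ⟨hl⟩
  have h := sum_ph (L := L) (l := l) hs
  have e : ab L l = (ab_finite (L := L) hl.ne_zero).toFinset := by
    unfold ab
    rw [dif_pos (ab_finite hl.ne_zero)]
  rw [e]
  exact h

lemma norm_dg {l : ℕ} (hl : l.Prime) {v : HeightOneSpectrum (𝓞 L)} (hv : Abv v l) :
    1 ≤ dg l v ∧ Ideal.absNorm v.asIdeal = l ^ dg l v := by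
  obtain ⟨p, f, hp, hpv, hf, hpf⟩ := below v
  have h1 : p = l := prime_unique hp hl hpv hv
  subst h1
  have : Fact p.Prime := ⟨hp⟩
  have h2 : dg p v = f := by
    unfold dg
    rw [hpf, padicValNat.prime_pow]
  rw [h2]
  exact ⟨hf, hpf⟩

lemma card_ab_le {l : ℕ} (hl : l.Prime) (hs : Squarefree (Ideal.span {(l : 𝓞 L)})) :
    (ab L l).card ≤ Module.finrank ℚ L := by
  rw [← sum_dg hl hs, Finset.card_eq_sum_ones]
  exact Finset.sum_le_sum fun v hv => (norm_dg hl ((mem_ab hl.ne_zero).mp hv)).1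

end

theorem two : S_TWO := by
  classical
  intro L _ _ q B hG p hp hpB hN hord
  have hs := hG.ram p hp hpB
  have hz := hG.zc p hp hpB
  have hq := hG.ge
  have hqp := hG.pr
  obtain ⟨v0, hv0⟩ : ∃ v0 : HeightOneSpectrum (𝓞 L), Ideal.absNorm v0.asIdeal = p := by
    by_contra hno
    push Not at hno
    have : N1 L p = 0 := by
      unfold N1
      have : IsEmpty {v : HeightOneSpectrum (𝓞 L) // Ideal.absNorm v.asIdeal = p} :=
        ⟨fun v => hno v.1 v.2⟩
      exact Nat.card_of_isEmpty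
    omega
  have hA0 : Abv v0 p := by
    have := Ideal.absNorm_mem v0.asIdeal
    rw [hv0] at this
    exact this
  have hd0 : dg p v0 = 1 := by
    have h1 := (norm_dg hp hA0).2
    rw [hv0] at h1
    have h2 : p ^ dg p v0 = p ^ 1 := by rw [← h1, pow_one]
    exact Nat.pow_right_injective hp.two_le h2
  have hbig : ∀ v : HeightOneSpectrum (𝓞 L), Abv v p → v ≠ v0 → q - 1 ≤ dg p v := by
    intro v hv hne
    obtain ⟨h1, h2⟩ := norm_dg hp hv
    have hnp : Ideal.absNorm v.asIdeal ≠ p := by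
      intro h
      have h3 := hz.2 v v0 hv hA0 hne h hv0
      have h4 : (p : ZMod q) = 1 := by
        have : ((p % q : ℕ) : ZMod q) = (p : ZMod q) := ZMod.natCast_mod p q
        rw [← this, h3, Nat.cast_one]
      rw [h4, orderOf_one] at hord
      omega
    have h3 := hz.1 v hv hnp
    rw [h2] at h3
    have h4 : (p : ZMod q) ^ dg p v = 1 := by
      have : ((p ^ dg p v % q : ℕ) : ZMod q) = ((p ^ dg p v : ℕ) : ZMod q) :=
        ZMod.natCast_mod _ q
      rw [← Nat.cast_pow, ← this, h3, Nat.cast_one]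
    have h5 := orderOf_dvd_of_pow_eq_one h4
    rw [hord] at h5
    exact Nat.le_of_dvd h1 h5
  refine ⟨v0, hA0, hv0, fun M hM v hv hne => ?_⟩
  have hsum := sum_dg hp hs
  rw [hG.deg] at hsum
  have hm0 : v0 ∈ ab L p := (mem_ab hp.ne_zero).mpr hA0
  have hm : v ∈ (ab L p).erase v0 := Finset.mem_erase.mpr ⟨hne, (mem_ab hp.ne_zero).mpr hv⟩
  have hrest : ∀ w ∈ ((ab L p).erase v0).erase v, dg p w = 0 := by
    rw [← Finset.add_sum_erase _ _ hm0, ← Finset.add_sum_erase _ _ hm, hd0] at hsum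
    have h1 := hbig v hv hne
    have h2 : ∑ w ∈ ((ab L p).erase v0).erase v, dg p w = 0 := by omega
    exact fun w hw => (Finset.sum_eq_zero_iff.mp h2) w hw
  have hdv : dg p v = q - 1 := by
    rw [← Finset.add_sum_erase _ _ hm0, ← Finset.add_sum_erase _ _ hm, hd0,
      Finset.sum_eq_zero hrest] at hsum
    omega
  unfold Deg1 at hM
  rw [← Finset.add_sum_erase _ _ hm0, ← Finset.add_sum_erase _ _ hm, hd0, hdv,
    Finset.sum_eq_zero (s := ((ab L p).erase v0).erase v)
      (fun w hw => by rw [hrest w hw]; simp)] at hM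
  obtain ⟨k, hk⟩ := hM
  have hq1 : ((q - 1 : ℕ) : ℤ) = (q : ℤ) - 1 := by
    rw [Nat.cast_sub (by omega)]; simp
  rw [hq1] at hk
  refine ⟨k - M v, ?_⟩
  push_cast at hk
  linear_combination hk

theorem ind_ : S_IND := by
  intro L _ _ q B hG l hl hlB
  have hq : (0 : ℝ) < q := by
    have := hG.ge
    exact_mod_cast (by omega : 0 < q)
  have hq1 : (1 : ℝ) ≤ q := by
    have := hG.ge
    exact_mod_cast (by omega : 1 ≤ q)
  constructor
  · unfold ind kap
    split_ifs
    · exact mul_inv_cancel₀ (zpow_ne_zero _ hq.ne')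
    · rw [← zpow_neg, ← zpow_add₀ hq.ne']
      have : ((ab L l).card : ℤ) - 2 + -(((ab L l).card : ℤ) - 1) = -1 := by ring
      rw [this, zpow_neg_one, one_div]
  · have h1 := card_ab_le hl (hG.ram l hl hlB)
    rw [hG.deg] at h1
    rw [← zpow_natCast (q : ℝ) q]
    exact zpow_le_zpow_right₀ hq1 (by omega)

end Pool.Agent.Q86.ZC
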