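import Pool.Agent.Q86.ZC.Cls
import Pool.Agent.Q86.ZC.Two
import Pool.Agent.Q51.EL.LSV
import Pool.Agent.Q247.EL.M1
import Pool.Agent.Q91.EL.Sums

/-!
# Project ZC (helper51), job ONE: the sieve for fixed `m` and fixed valuations
-/

set_option autoImplicit false

namespace Pool.Agent.Q86.ZC

open Polynomial NumberField IsDedekindDomain Finset
open Pool.Agent.Q51.EL Pool.Agent.Q51.SE Pool.Agent.Q51.ZC

/-- splitting a box into residue classes -/
lemma split_box {L : Type} [Field L] [NumberField L] (T : Set (𝓞 L)) {Y Y1 C1 K : ℝ} {s : ℕ}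
    (hs : s ≠ 0)
    (hrep : ∀ γ : 𝓞 L, ∃ r : 𝓞 L, (∀ σ : L →+* ℂ, ‖σ (r : L)‖ ≤ C1 * s) ∧ (s : 𝓞 L) ∣ γ - r)
    (hY : (Y + C1 * s) / s ≤ Y1)
    (hK : ∀ r : 𝓞 L, ((({β : 𝓞 L | r + (s : 𝓞 L) * β ∈ T ∧
      ∀ σ : L →+* ℂ, ‖σ (β : L)‖ ≤ Y1}).ncard : ℕ) : ℝ) ≤ K) :
    (({γ ∈ T | ∀ σ : L →+* ℂ, ‖σ (γ : L)‖ ≤ Y}.ncard : ℕ) : ℝ) ≤ (cls s T : ℝ) * K := by
  classical
  have hsR : (0 : ℝ) < s := by exact_mod_cast Nat.pos_of_ne_zero hs
  have hfin := Pool.Agent.Q247.EL.finite_box L T Y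
  have := fin_quot (L := L) hs
  set f : 𝓞 L → 𝓞 L ⧸ Ideal.span {(s : 𝓞 L)} := fun γ => Ideal.Quotient.mk _ γ with hf
  rw [Set.ncard_eq_toFinset_card _ hfin]
  rw [Finset.card_eq_sum_card_image f]
  have hK0 : 0 ≤ K := le_trans (Nat.cast_nonneg _) (hK 0)
  have h1 : ∀ x ∈ hfin.toFinset.image f, (((hfin.toFinset.filter (fun γ => f γ = x)).card : ℕ) : ℝ) ≤ K := by
    intro x hx
    rw [Finset.mem_image] at hx
    obtain ⟨γ0, -, rfl⟩ := hx
    obtain ⟨r, hr, hrd⟩ := hrep γ0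
    refine le_trans ?_ (hK r)
    have hfin2 : ({β : 𝓞 L | r + (s : 𝓞 L) * β ∈ T ∧ ∀ σ : L →+* ℂ, ‖σ (β : L)‖ ≤ Y1}).Finite :=
      Pool.Agent.Q247.EL.finite_box L {β : 𝓞 L | r + (s : 𝓞 L) * β ∈ T} Y1
    have h2 : ((hfin.toFinset.filter (fun γ => f γ = f γ0) : Finset (𝓞 L)) : Set (𝓞 L)) ⊆
        (fun β : 𝓞 L => r + (s : 𝓞 L) * β) '' {β : 𝓞 L | r + (s : 𝓞 L) * β ∈ T ∧
          ∀ σ : L →+* ℂ, ‖σ (β : L)‖ ≤ Y1} := by
      intro γ hγ
      rw [Finset.mem_coe, Finset.mem_filter, Set.Finite.mem_toFinset] at hγ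
      obtain ⟨⟨hγT, hγY⟩, hγf⟩ := hγ
      have h3 : (s : 𝓞 L) ∣ γ - γ0 := mk_eq_iff.mp hγf
      have h4 : (s : 𝓞 L) ∣ γ - r := by
        have := dvd_add h3 hrd
        rwa [sub_add_sub_cancel] at this
      obtain ⟨β, hβ⟩ := h4
      have h5 : r + (s : 𝓞 L) * β = γ := by rw [← hβ]; ring
      refine ⟨β, ⟨by rw [h5]; exact hγT, fun σ => ?_⟩, h5⟩
      have h6 : (s : L) * (β : L) = (γ : L) - (r : L) := by
        have := congrArg (fun x : 𝓞 L => (x : L)) hβ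
        simp only [map_sub, map_mul, map_natCast] at this
        exact this.symm
      have h7 : (s : ℂ) * σ (β : L) = σ (γ : L) - σ (r : L) := by
        rw [← map_sub, ← h6, map_mul, map_natCast]
      have h8 : (s : ℝ) * ‖σ (β : L)‖ ≤ Y + C1 * s := by
        have h9 : ‖(s : ℂ) * σ (β : L)‖ = (s : ℝ) * ‖σ (β : L)‖ := by
          rw [norm_mul, Complex.norm_natCast]
        rw [← h9, h7]
        exact (norm_sub_le _ _).trans (add_le_add (hγY σ) (hr σ))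
      refine le_trans ?_ hY
      rw [le_div_iff₀ hsR, mul_comm]
      exact h8
    have h3 := Set.ncard_le_ncard h2 (hfin2.image _)
    rw [Set.ncard_coe_finset] at h3
    exact_mod_cast h3.trans (Set.ncard_image_le hfin2)
  push_cast
  refine (Finset.sum_le_sum h1).trans ?_
  rw [Finset.sum_const, nsmul_eq_mul]
  refine mul_le_mul_of_nonneg_right ?_ hK0
  have h4 : ((hfin.toFinset.image f : Finset _) : Set _) ⊆
      Ideal.Quotient.mk (Ideal.span {(s : 𝓞 L)}) '' T := by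
    intro x hx
    rw [Finset.mem_coe, Finset.mem_image] at hx
    obtain ⟨γ, hγ, rfl⟩ := hx
    rw [Set.Finite.mem_toFinset] at hγ
    exact ⟨γ, hγ.1, rfl⟩
  have h5 := Set.ncard_le_ncard h4 (Set.toFinite _)
  rw [Set.ncard_coe_finset] at h5
  exact_mod_cast h5

open Classical in
/-- the sieve -/
lemma fib (L : Type) [Field L] [NumberField L] (q B : ℕ) (hG : Good L q B) (ε : ℝ) (hε : 0 < ε) :
    ∃ C : ℝ, 0 < C ∧ ∀ (m : ℕ) (Z Y1 : ℝ) (T : Set (𝓞 L)), m ≠ 0 → 3 ≤ Z → Z ^ 2 ≤ Y1 →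
    (∀ l : ℕ, l.Prime → (l : ℝ) ≤ Z → ¬ l ∣ B → ¬ l ∣ m → (cls l T : ℝ) ≤
      (l : ℝ) ^ q * (1 - (N1 L l : ℝ) / l + (q : ℝ) ^ 2 / (l : ℝ) ^ 2)) →
    (({γ ∈ T | ∀ σ : L →+* ℂ, ‖σ (γ : L)‖ ≤ Y1}.ncard : ℕ) : ℝ) ≤
      C * Y1 ^ q * (∏ l ∈ m.primeFactors, Real.exp ((q : ℝ) / l)) * Real.log Z ^ (-(1 - ε)) := by
  obtain ⟨Cs, hCs, hsieve⟩ := Pool.Agent.Q247.EL.sieve Pool.Agent.Q51.EL.lsv L
  have hdeg := hG.deg
  rw [hdeg] at hsieve
  have hq3 : 3 ≤ q := hG.ge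
  have hq0 : (0 : ℝ) < q := by exact_mod_cast (by omega : 0 < q)
  obtain ⟨c2, hc2, hsums⟩ := Pool.Agent.Q91.EL.sums q hq0
  obtain ⟨C5, hmert⟩ := Pool.Agent.Q247.EL.m1 L ε hε
  have hN1le : ∀ l : ℕ, l.Prime → N1 L l ≤ q := fun l hl => by
    rw [← hdeg]; exact N1_le hl
  have hsumm : Summable (fun n : ℕ => 1 / (n : ℝ) ^ 2) :=
    Real.summable_one_div_nat_pow.2 (by norm_num)
  set K2 : ℝ := ∑' n : ℕ, 1 / (n : ℝ) ^ 2 with hK2
  set R : ℝ := C5 + q * (q ^ 2 + B) + q ^ 2 * K2 with hR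
  refine ⟨Cs / c2 * Real.exp R, by positivity, ?_⟩
  intro m Z Y1 T hm hZ hY hT
  have hZ0 : 0 < Z := by linarith
  have hY1 : 1 ≤ Y1 := by nlinarith
  have hlogZ : 0 < Real.log Z := Real.log_pos (by linarith)
  set M : ℝ := (({γ ∈ T | ∀ σ : L →+* ℂ, ‖σ (γ : L)‖ ≤ Y1}.ncard : ℕ) : ℝ) with hM
  have hM0 : 0 ≤ M := Nat.cast_nonneg _
  set Q : ℕ := ⌊Z⌋₊ with hQ
  have hQ1 : 1 ≤ Q := Nat.le_floor (by push_cast; linarith)
  have hQZ : (Q : ℝ) ≤ Z := Nat.floor_le hZ0.le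
  set P : Finset ℕ := (pr Z).filter (fun l => q ^ 2 < l ∧ ¬ l ∣ B ∧ ¬ l ∣ m ∧ 1 ≤ N1 L l) with hP
  set η : ℕ → ℝ := fun l => (N1 L l : ℝ) / l - (q : ℝ) ^ 2 / (l : ℝ) ^ 2 with hη
  have hprW : ∀ l ∈ pr Z, l.Prime ∧ l ≤ Q := by
    intro l hl
    unfold pr at hl
    rw [mem_filter, mem_Icc] at hl
    exact ⟨hl.2, hl.1.2⟩
  have hPpr : ∀ l ∈ P, l.Prime := fun l hl => (hprW l (mem_filter.1 hl).1).1
  have hPQ : ∀ l ∈ P, l ≤ Q := fun l hl => (hprW l (mem_filter.1 hl).1).2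
  have hηprop : ∀ l ∈ P, 0 < η l ∧ η l ≤ q / l := by
    intro l hl
    have hl0 : (0 : ℝ) < l := by exact_mod_cast (hPpr l hl).pos
    have hlpr := hPpr l hl
    rw [hP, mem_filter] at hl
    obtain ⟨-, hl1, hl2, hl3, hl4⟩ := hl
    have hl1' : (q : ℝ) ^ 2 < l := by exact_mod_cast hl1
    have hN : (1 : ℝ) ≤ N1 L l := by exact_mod_cast hl4
    have hNn : (N1 L l : ℝ) ≤ q := by exact_mod_cast hN1le l hlpr
    constructor
    · simp only [hη]
      have h10 : (q : ℝ) ^ 2 / (l : ℝ) ^ 2 < 1 / l := by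
        rw [div_lt_div_iff₀ (by positivity) hl0]; nlinarith
      have h11 : 1 / (l : ℝ) ≤ (N1 L l : ℝ) / l := div_le_div_of_nonneg_right hN hl0.le
      linarith
    · simp only [hη]
      have h10 : 0 ≤ (q : ℝ) ^ 2 / (l : ℝ) ^ 2 := by positivity
      have h11 : (N1 L l : ℝ) / l ≤ (q : ℝ) / l := div_le_div_of_nonneg_right hNn hl0.le
      linarith
  have hs := hsieve Y1 P T η hY1 hPpr (fun l hl => ⟨(hηprop l hl).1, by
    have hl' := hl
    rw [hP, mem_filter] at hl'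
    obtain ⟨-, hl1, hl2, hl3, hl4⟩ := hl'
    have hlZ : (l : ℝ) ≤ Z := le_trans (by exact_mod_cast hPQ l hl) hQZ
    have h12 := hT l (hPpr l hl) hlZ hl2 hl3
    unfold cls at h12
    refine h12.trans (le_of_eq ?_)
    simp only [hη]; ring⟩)
  have hss := hsums Q P η hQ1 hPpr hPQ (fun l hl => ⟨(hηprop l hl).1.le, (hηprop l hl).2⟩)
  have hfilter : ∑ D ∈ P.powerset.filter (fun D => ∏ t ∈ D, t ≤ Q), ∏ t ∈ D, η t ≤
      ∑ D ∈ P.powerset.filter (fun D => (((∏ t ∈ D, t : ℕ) : ℝ)) ^ 2 ≤ Y1), ∏ t ∈ D, η t := by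
    refine Finset.sum_le_sum_of_subset_of_nonneg ?_ ?_
    · intro D hD
      rw [mem_filter] at hD ⊢
      refine ⟨hD.1, le_trans ?_ hY⟩
      have h20 : ((∏ t ∈ D, t : ℕ) : ℝ) ≤ Z := le_trans (by exact_mod_cast hD.2) hQZ
      exact pow_le_pow_left₀ (Nat.cast_nonneg _) h20 2
    · intro D hD _
      rw [mem_filter, mem_powerset] at hD
      exact Finset.prod_nonneg fun l hl => (hηprop l (hD.1 hl)).1.le
  have hPsub : P ⊆ pr Z := Finset.filter_subset _ _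
  have hlow : (1 - ε) * Real.log (Real.log Z) - ∑ l ∈ m.primeFactors, (q : ℝ) / l - R ≤
      ∑ l ∈ P, η l := by
    have e1 : ∑ l ∈ P, η l = ∑ l ∈ P, (N1 L l : ℝ) / (l : ℝ) -
        ∑ l ∈ P, (q : ℝ) ^ 2 / (l : ℝ) ^ 2 := by
      rw [← Finset.sum_sub_distrib]
    have e2 : ∑ l ∈ P, (q : ℝ) ^ 2 / (l : ℝ) ^ 2 ≤ q ^ 2 * K2 := by
      have : ∑ l ∈ P, (q : ℝ) ^ 2 / (l : ℝ) ^ 2 = q ^ 2 * ∑ l ∈ P, 1 / (l : ℝ) ^ 2 := by
        rw [Finset.mul_sum]; exact Finset.sum_congr rfl fun l _ => by ring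
      rw [this]
      exact mul_le_mul_of_nonneg_left (hsumm.sum_le_tsum _ fun n _ => by positivity)
        (by positivity)
    have e3 : ∑ l ∈ pr Z, (N1 L l : ℝ) / (l : ℝ) ≤
        ∑ l ∈ P, (N1 L l : ℝ) / (l : ℝ) + (q * (q ^ 2 + B) + ∑ l ∈ m.primeFactors, (q : ℝ) / l) := by
      rw [← Finset.sum_sdiff hPsub, add_comm]
      refine add_le_add le_rfl ?_
      have e4 : ∀ l ∈ pr Z \ P, (N1 L l : ℝ) / (l : ℝ) ≤
          (if l ∈ Icc 1 (q ^ 2) ∪ Icc 1 B then (q : ℝ) else 0) +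
          (if l ∈ m.primeFactors then (q : ℝ) / l else 0) := by
        intro l hl
        rw [mem_sdiff] at hl
        obtain ⟨hl1, hl2⟩ := hl
        obtain ⟨hlp, -⟩ := hprW l hl1
        have hl0 : (0 : ℝ) < l := by exact_mod_cast hlp.pos
        have hl1' : (1 : ℝ) ≤ l := by exact_mod_cast hlp.one_lt.le
        have hNn : (N1 L l : ℝ) ≤ q := by exact_mod_cast hN1le l hlp
        have hgen : (N1 L l : ℝ) / (l : ℝ) ≤ (q : ℝ) / l := div_le_div_of_nonneg_right hNn hl0.le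
        have hgen2 : (q : ℝ) / l ≤ q := div_le_self hq0.le hl1'
        have hnn : 0 ≤ (q : ℝ) / l := by positivity
        by_cases hmem : l ∈ Icc 1 (q ^ 2) ∪ Icc 1 B
        · rw [if_pos hmem]
          split_ifs <;> linarith
        · rw [if_neg hmem, zero_add]
          by_cases hmm : l ∈ m.primeFactors
          · rw [if_pos hmm]
            exact hgen
          · rw [if_neg hmm]
            simp only [mem_union, mem_Icc, not_or, not_and, not_le] at hmem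
            obtain ⟨m1, m2⟩ := hmem
            have m1' := m1 hlp.one_lt.le
            have m2' := m2 hlp.one_lt.le
            have hdiv : ¬ l ∣ B := fun h =>
              absurd (Nat.le_of_dvd (Nat.pos_of_ne_zero hG.ne) h) (not_le.2 m2')
            have hdm : ¬ l ∣ m := fun h => hmm (Nat.mem_primeFactors.mpr ⟨hlp, h, hm⟩)
            have hN2 : N1 L l = 0 := by
              by_contra hcon
              exact hl2 (mem_filter.2 ⟨hl1, m1', hdiv, hdm, Nat.one_le_iff_ne_zero.mpr hcon⟩)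
            rw [hN2]
            simp
      refine (Finset.sum_le_sum e4).trans ?_
      rw [Finset.sum_add_distrib]
      refine add_le_add ?_ ?_
      · rw [← Finset.sum_filter, Finset.sum_const, nsmul_eq_mul]
        have hcard : ((pr Z \ P).filter (fun l => l ∈ Icc 1 (q ^ 2) ∪ Icc 1 B)).card ≤
            q ^ 2 + B := by
          refine (Finset.card_le_card (t := Icc 1 (q ^ 2) ∪ Icc 1 B)
            fun l hl => (mem_filter.1 hl).2).trans ?_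
          refine (Finset.card_union_le _ _).trans ?_
          simp only [Nat.card_Icc]
          omega
        have hcard' : (((pr Z \ P).filter
            (fun l => l ∈ Icc 1 (q ^ 2) ∪ Icc 1 B)).card : ℝ) ≤ q ^ 2 + B := by
          exact_mod_cast hcard
        rw [mul_comm]
        exact mul_le_mul_of_nonneg_left hcard' hq0.le
      · rw [← Finset.sum_filter]
        refine Finset.sum_le_sum_of_subset_of_nonneg ?_ fun _ _ _ => by positivity
        intro l hl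
        exact (mem_filter.1 hl).2
    have e7 := hmert Z hZ
    rw [e1, hR]
    linarith
  -- conclusion
  have hexp : Real.exp (∑ l ∈ P, η l) * c2 * M ≤ Cs * Y1 ^ q := by
    refine le_trans ?_ hs.2
    rw [mul_comm M]
    refine mul_le_mul_of_nonneg_right ?_ hM0
    rw [mul_comm]; exact hss.trans hfilter
  set X1 := (1 - ε) * Real.log (Real.log Z) with hX1
  set S1 := ∑ l ∈ m.primeFactors, (q : ℝ) / l with hS1
  have hexp2 : Real.exp (X1 - S1 - R) ≤ Real.exp (∑ l ∈ P, η l) := Real.exp_le_exp.2 hlow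
  have hrp : Real.log Z ^ (-(1 - ε)) = Real.exp (-X1) := by
    rw [Real.rpow_def_of_pos hlogZ, hX1]; congr 1; ring
  have hpe : ∏ l ∈ m.primeFactors, Real.exp ((q : ℝ) / l) = Real.exp S1 := by
    rw [hS1, Real.exp_sum]
  have h13 : Real.exp (X1 - S1 - R) * c2 * M ≤ Cs * Y1 ^ q :=
    (mul_le_mul_of_nonneg_right (mul_le_mul_of_nonneg_right hexp2 hc2.le) hM0).trans hexp
  rw [hrp, hpe]
  have h15 : Cs / c2 * Real.exp R * Y1 ^ q * Real.exp S1 * Real.exp (-X1) =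
      (Cs * Y1 ^ q) / (Real.exp (X1 - S1 - R) * c2) := by
    rw [Real.exp_sub, Real.exp_sub, Real.exp_neg]
    field_simp
  rw [h15, le_div_iff₀ (by positivity)]
  linarith

theorem one (h : S_CLS) : S_ONE := by
  classical
  intro L _ _ q B hG ε hε
  obtain ⟨C, hC, hfib⟩ := fib L q B hG ε hε
  obtain ⟨C1, hC1, hrep⟩ := reps L
  have hdeg := hG.deg
  refine ⟨C * (1 + C1) ^ q, by positivity, ?_⟩
  intro m M z Z Y T hm hmB hZ hsZ hTu hTm
  refine ⟨Pool.Agent.Q247.EL.finite_box L T Y, ?_⟩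
  have hm0 : m ≠ 0 := hm.ne_zero
  set S := m.primeFactors.filter (fun l : ℕ => (l : ℝ) ≤ z) with hS
  have hSp : ∀ l ∈ S, l.Prime ∧ l ∣ m ∧ (l : ℝ) ≤ z := by
    intro l hl
    rw [hS, mem_filter, Nat.mem_primeFactors] at hl
    exact ⟨hl.1.1, hl.1.2.1, hl.2⟩
  set s := smo z m with hsdef
  have hsS : s = ∏ l ∈ S, l := rfl
  have hs0 : s ≠ 0 := by
    rw [hsS]
    exact Finset.prod_ne_zero_iff.mpr fun l hl => (hSp l hl).1.ne_zero
  have hsR : (0 : ℝ) < s := by exact_mod_cast Nat.pos_of_ne_zero hs0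
  have hsdvd : ∀ l : ℕ, l.Prime → ¬ l ∣ m → ¬ l ∣ s := by
    intro l hl hlm hls
    rw [hsS, hl.prime.dvd_finset_prod_iff] at hls
    obtain ⟨p, hp, hlp⟩ := hls
    exact hlm (hlp.trans (hSp p hp).2.1)
  have hYs : Z ^ 2 ≤ Y / s := by
    rw [le_div_iff₀ hsR, mul_comm]
    exact hsZ
  have hYs1 : 1 ≤ Y / s := by nlinarith
  set Y1 : ℝ := (1 + C1) * (Y / s) with hY1
  have hY1Z : Z ^ 2 ≤ Y1 := by
    rw [hY1]
    nlinarith
  have hYY1 : (Y + C1 * s) / s ≤ Y1 := by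
    have e : (Y + C1 * s) / s = Y / s + C1 := by field_simp
    rw [e, hY1]
    nlinarith
  set E : ℝ := ∏ l ∈ m.primeFactors, Real.exp ((q : ℝ) / l) with hE
  set W : ℝ := Real.log Z ^ (-(1 - ε)) with hW
  have hK : ∀ r : 𝓞 L, ((({β : 𝓞 L | r + (s : 𝓞 L) * β ∈ T ∧
      ∀ σ : L →+* ℂ, ‖σ (β : L)‖ ≤ Y1}).ncard : ℕ) : ℝ) ≤ C * Y1 ^ q * E * W := by
    intro r
    refine hfib m Z Y1 {β : 𝓞 L | r + (s : 𝓞 L) * β ∈ T} hm0 hZ hY1Z ?_
    intro l hl hlZ hlB hlm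
    have h1 := cls_shift hl (hsdvd l hl hlm) r T
    have h2 : cls l T ≤ cls l {γ : 𝓞 L | ∀ v : HeightOneSpectrum (𝓞 L), Abv v l → γ ∉ v.asIdeal} :=
      cls_mono hl.ne_zero (fun γ hγ => hTu γ hγ l hl hlZ hlB hlm)
    have h3 := cls_unit (L := L) hl (hG.ram l hl hlB)
    rw [hdeg] at h3
    have h4 : (cls l {β : 𝓞 L | r + (s : 𝓞 L) * β ∈ T} : ℝ) ≤
        (cls l {γ : 𝓞 L | ∀ v : HeightOneSpectrum (𝓞 L), Abv v l → γ ∉ v.asIdeal} : ℝ) := by
      exact_mod_cast h1.trans h2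
    exact h4.trans h3
  have hsplit := split_box T hs0 (hrep s hs0) hYY1 hK
  refine hsplit.trans ?_
  have hlogZ : 0 < Real.log Z := Real.log_pos (by linarith)
  have hW0 : 0 ≤ W := (Real.rpow_pos_of_pos hlogZ _).le
  have hE0 : 0 ≤ E := Finset.prod_nonneg fun l _ => (Real.exp_pos _).le
  have hY10 : 0 ≤ Y1 := by
    rw [hY1]
    exact mul_nonneg (by linarith) (by linarith)
  have hcl : (cls s T : ℝ) ≤ (s : ℝ) ^ q * ∏ l ∈ S, (ind L q l)⁻¹ := by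
    have h1 : (cls s T : ℝ) ≤ ∏ l ∈ S, (cls l T : ℝ) := by
      have := cls_prod S (fun l hl => (hSp l hl).1) T
      rw [← hsS] at this
      exact_mod_cast this
    refine h1.trans ?_
    have h2 : (s : ℝ) ^ q = ∏ l ∈ S, (l : ℝ) ^ q := by
      rw [hsS]
      push_cast
      rw [Finset.prod_pow]
    rw [h2, ← Finset.prod_mul_distrib]
    refine Finset.prod_le_prod (fun l _ => Nat.cast_nonneg _) fun l hl => ?_
    obtain ⟨hlp, hlm, hlz⟩ := hSp l hl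
    have hlB : ¬ l ∣ B := by
      intro hlB
      have := Nat.dvd_gcd hlm hlB
      rw [hmB] at this
      exact hlp.one_lt.ne' (Nat.dvd_one.mp this)
    have h3 := h L q l hG.pr hlp (hG.ram l hlp hlB) (hG.zc l hlp hlB) M T
      (fun γ hγ v hv => (hTm l hlp hlm hlz).1 γ hγ v hv)
      (fun γ hγ γ' hγ' => (hTm l hlp hlm hlz).2 γ hγ γ' hγ')
    rw [hdeg] at h3
    exact h3
  have hpos : 0 ≤ C * Y1 ^ q * E * W := by positivity
  refine (mul_le_mul_of_nonneg_right hcl hpos).trans (le_of_eq ?_)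
  rw [hY1, mul_pow, div_pow]
  field_simp

end Pool.Agent.Q86.ZC
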