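import Pool.Agent.Q51.ZC.Stm
import Pool.Agent.Q26.SE.UNQ
import Pool.Agent.Q51.SE.Cl

/-!
# Project ZC (helper51), job PRN: small generators
-/

set_option autoImplicit false

namespace Pool.Agent.Q86.ZC

open Polynomial NumberField IsDedekindDomain Finset
open Pool.Agent.Q51.EL Pool.Agent.Q51.SE Pool.Agent.Q51.ZC Pool.Agent.Q239.EL

theorem prn : S_PRN := by
  classical
  intro L _ _
  have hsur : ∀ g : ClassGroup (𝓞 L), ∃ I : nonZeroDivisors (Ideal (𝓞 L)), ClassGroup.mk0 I = g :=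
    ClassGroup.mk0_surjective
  choose c hc using hsur
  have hc0 : ∀ g, (c g : Ideal (𝓞 L)) ≠ 0 := fun g => nonZeroDivisors.ne_zero (c g).2
  have hcn : ∀ g, Ideal.absNorm (c g : Ideal (𝓞 L)) ≠ 0 := fun g => by
    rw [Ne, Ideal.absNorm_eq_zero_iff]
    exact hc0 g
  set B : ℕ := ∏ g : ClassGroup (𝓞 L), Ideal.absNorm (c g : Ideal (𝓞 L)) with hB
  have hB0 : B ≠ 0 := Finset.prod_ne_zero_iff.mpr fun g _ => hcn g
  have hle : ∀ g, Ideal.absNorm (c g : Ideal (𝓞 L)) ≤ B := fun g =>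
    Nat.le_of_dvd (Nat.pos_of_ne_zero hB0) (Finset.dvd_prod_of_mem
      (fun g : ClassGroup (𝓞 L) => Ideal.absNorm (c g : Ideal (𝓞 L))) (Finset.mem_univ g))
  have hcv : ∀ v : HeightOneSpectrum (𝓞 L), (B : 𝓞 L) ∉ v.asIdeal → ∀ g,
      ¬ v.asIdeal ∣ (c g : Ideal (𝓞 L)) := by
    intro v hv g hd
    apply hv
    have h1 : (c g : Ideal (𝓞 L)) ≤ v.asIdeal := Ideal.dvd_iff_le.mp hd
    have h2 := h1 (Ideal.absNorm_mem (c g : Ideal (𝓞 L)))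
    obtain ⟨m, hm⟩ : Ideal.absNorm (c g : Ideal (𝓞 L)) ∣ B := Finset.dvd_prod_of_mem
      (fun g : ClassGroup (𝓞 L) => Ideal.absNorm (c g : Ideal (𝓞 L))) (Finset.mem_univ g)
    rw [hm, Nat.cast_mul]
    exact Ideal.mul_mem_right _ _ h2
  obtain ⟨C1, hC1, hu⟩ := Pool.Agent.Q26.SE.unq L 1 one_pos
  set e : ℝ := (1 : ℝ) / Module.finrank ℚ L with he
  have he0 : 0 ≤ e := by positivity
  have hBpos : (0 : ℝ) < B := by exact_mod_cast Nat.pos_of_ne_zero hB0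
  refine ⟨B, C1 * (B : ℝ) ^ e, hB0, mul_pos hC1 (Real.rpow_pos_of_pos hBpos _), fun v0 => ?_⟩
  set I0 : nonZeroDivisors (Ideal (𝓞 L)) := ⟨v0.asIdeal, mem_nonZeroDivisors_of_ne_zero v0.ne_bot⟩
    with hI0
  set g := (ClassGroup.mk0 I0)⁻¹ with hg
  have hmk : ClassGroup.mk0 (I0 * c g) = 1 := by
    rw [map_mul, hc g, hg, mul_inv_cancel]
  have hpr : ((I0 * c g : nonZeroDivisors (Ideal (𝓞 L))) : Ideal (𝓞 L)).IsPrincipal :=
    (ClassGroup.mk0_eq_one_iff _).mp hmk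
  obtain ⟨γ0, hγ0⟩ := hpr.principal
  have hγ1 : v0.asIdeal * (c g : Ideal (𝓞 L)) = Ideal.span {γ0} := hγ0
  have hγ00 : γ0 ≠ 0 := by
    rintro rfl
    have h1 : v0.asIdeal * (c g : Ideal (𝓞 L)) = 0 := by
      rw [hγ1]; simp
    exact mul_ne_zero v0.ne_bot (hc0 g) h1
  obtain ⟨u, hu⟩ := hu γ0 hγ00
  have hspan : Ideal.span {γ0 * (u : 𝓞 L) ^ 1} = v0.asIdeal * (c g : Ideal (𝓞 L)) := by
    rw [hγ1, Ideal.span_singleton_eq_span_singleton, pow_one]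
    refine ⟨u⁻¹, ?_⟩
    rw [mul_assoc, Units.mul_inv, mul_one]
  have hne : γ0 * (u : 𝓞 L) ^ 1 ≠ 0 := mul_ne_zero hγ00 (pow_ne_zero _ u.ne_zero)
  refine ⟨γ0 * (u : 𝓞 L) ^ 1, hne, ?_, ?_, ?_, ?_⟩
  · have h1 : Ideal.span {γ0 * (u : 𝓞 L) ^ 1} ≤ v0.asIdeal := by
      rw [hspan]
      exact Ideal.dvd_iff_le.mp (dvd_mul_right _ _)
    exact h1 (Ideal.mem_span_singleton_self _)
  · intro v hv hvv hmem
    have h1 : v.asIdeal ∣ v0.asIdeal * (c g : Ideal (𝓞 L)) := by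
      rw [← hspan, Ideal.dvd_iff_le, Ideal.span_singleton_le_iff_mem]
      exact hmem
    rcases v.prime.dvd_or_dvd h1 with h2 | h2
    · exact not_dvd_of_ne hvv h2
    · exact hcv v hv g h2
  · intro hv
    rw [val_int v0 hne, hspan, mu_mul v0 v0.ne_bot (hc0 g), mu_self, mu_eq_zero (hcv v0 hv g)]
    norm_num
  · intro σ
    refine (hu σ).trans ?_
    rw [← hγ1, map_mul, Nat.cast_mul, Real.mul_rpow (Nat.cast_nonneg _) (Nat.cast_nonneg _)]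
    have h1 : ((Ideal.absNorm (c g : Ideal (𝓞 L)) : ℕ) : ℝ) ^ e ≤ (B : ℝ) ^ e :=
      Real.rpow_le_rpow (Nat.cast_nonneg _) (by exact_mod_cast hle g) he0
    have h2 : 0 ≤ ((Ideal.absNorm v0.asIdeal : ℕ) : ℝ) ^ e :=
      Real.rpow_nonneg (Nat.cast_nonneg _) _
    calc C1 * (((Ideal.absNorm v0.asIdeal : ℕ) : ℝ) ^ e *
          ((Ideal.absNorm (c g : Ideal (𝓞 L)) : ℕ) : ℝ) ^ e)
        ≤ C1 * (((Ideal.absNorm v0.asIdeal : ℕ) : ℝ) ^ e * (B : ℝ) ^ e) :=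
          mul_le_mul_of_nonneg_left (mul_le_mul_of_nonneg_left h1 h2) hC1.le
      _ = _ := by ring

end Pool.Agent.Q86.ZC
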