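import Pool.Agent.Q51.ZC.Stm
import Pool.Agent.Q247.EL.CNT
import Pool.Agent.Q247.EL.SIEVE
import Pool.Agent.Q91.EL.Small

/-!
# Project ZC (helper51), job ONE, part 1: residue classes
-/

set_option autoImplicit false

namespace Pool.Agent.Q86.ZC

open Polynomial NumberField IsDedekindDomain Finset
open Pool.Agent.Q51.EL Pool.Agent.Q51.SE Pool.Agent.Q51.ZC

section
variable {L : Type} [Field L] [NumberField L]

/-- the number of the residue classes modulo `a` represented by `T` -/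
noncomputable def cls (a : ℕ) (T : Set (𝓞 L)) : ℕ :=
  (Ideal.Quotient.mk (Ideal.span {(a : 𝓞 L)}) '' T).ncard

lemma fin_quot {a : ℕ} (ha : a ≠ 0) : Finite (𝓞 L ⧸ Ideal.span {(a : 𝓞 L)}) := by
  have hne : (Ideal.span {(a : 𝓞 L)}) ≠ ⊥ := by
    rw [Ne, Ideal.span_singleton_eq_bot]
    exact_mod_cast ha
  exact Ideal.finiteQuotientOfFreeOfNeBot _ hne

lemma mk_eq_iff {a : ℕ} {x y : 𝓞 L} : Ideal.Quotient.mk (Ideal.span {(a : 𝓞 L)}) x =
    Ideal.Quotient.mk (Ideal.span {(a : 𝓞 L)}) y ↔ (a : 𝓞 L) ∣ x - y := by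
  rw [Ideal.Quotient.eq, Ideal.mem_span_singleton]

/-- comparison of numbers of classes -/
lemma cls_le_of {a : ℕ} {X : Type} (T : Set (𝓞 L)) (f : 𝓞 L → X) (S : Set X) (hS : S.Finite)
    (hf : ∀ x ∈ T, f x ∈ S) (hinj : ∀ x ∈ T, ∀ y ∈ T, f x = f y → (a : 𝓞 L) ∣ x - y) :
    cls a T ≤ S.ncard := by
  classical
  unfold cls
  have hch : ∀ x ∈ Ideal.Quotient.mk (Ideal.span {(a : 𝓞 L)}) '' T, ∃ y ∈ T,
      Ideal.Quotient.mk (Ideal.span {(a : 𝓞 L)}) y = x := fun x hx => hx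
  choose! g hg1 hg2 using hch
  refine Set.ncard_le_ncard_of_injOn (fun x => f (g x)) (fun x hx => hf _ (hg1 x hx)) ?_ hS
  intro x hx y hy hxy
  rw [← hg2 x hx, ← hg2 y hy, mk_eq_iff]
  exact hinj _ (hg1 x hx) _ (hg1 y hy) hxy

lemma cls_mono {a : ℕ} (ha : a ≠ 0) {T T' : Set (𝓞 L)} (h : T ⊆ T') : cls a T ≤ cls a T' := by
  have := fin_quot (L := L) ha
  exact Set.ncard_le_ncard (Set.image_mono h) (Set.toFinite _)

lemma coprime_mul_dvd {a b : ℕ} (hab : a.Coprime b) {x : 𝓞 L} (h1 : (a : 𝓞 L) ∣ x)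
    (h2 : (b : 𝓞 L) ∣ x) : ((a * b : ℕ) : 𝓞 L) ∣ x := by
  have h3 : IsCoprime (a : 𝓞 L) (b : 𝓞 L) := by
    have h4 : IsCoprime (a : ℤ) (b : ℤ) := Nat.isCoprime_iff_coprime.mpr hab
    have h5 := h4.map (Int.castRingHom (𝓞 L))
    simpa using h5
  rw [Nat.cast_mul]
  exact h3.mul_dvd h1 h2

lemma cls_mul {a b : ℕ} (ha : a ≠ 0) (hb : b ≠ 0) (hab : a.Coprime b) (T : Set (𝓞 L)) :
    cls (a * b) T ≤ cls a T * cls b T := by
  have := fin_quot (L := L) ha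
  have := fin_quot (L := L) hb
  have h1 := cls_le_of (a := a * b) T
    (fun x => (Ideal.Quotient.mk (Ideal.span {(a : 𝓞 L)}) x,
      Ideal.Quotient.mk (Ideal.span {(b : 𝓞 L)}) x))
    ((Ideal.Quotient.mk (Ideal.span {(a : 𝓞 L)}) '' T) ×ˢ
      (Ideal.Quotient.mk (Ideal.span {(b : 𝓞 L)}) '' T)) (Set.toFinite _)
    (fun x hx => ⟨⟨x, hx, rfl⟩, ⟨x, hx, rfl⟩⟩) (by
      intro x _ y _ hxy
      rw [Prod.mk.injEq, mk_eq_iff, mk_eq_iff] at hxy
      exact coprime_mul_dvd hab hxy.1 hxy.2)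
  rw [Set.ncard_prod] at h1
  exact h1

lemma cls_one (T : Set (𝓞 L)) : cls 1 T ≤ 1 := by
  have h1 := cls_le_of (a := 1) T (fun _ => ()) Set.univ (Set.toFinite _)
    (fun _ _ => Set.mem_univ _) (fun x _ y _ _ => by
      rw [Nat.cast_one]
      exact one_dvd _)
  simpa using h1

lemma cls_prod (S : Finset ℕ) (hS : ∀ l ∈ S, l.Prime) (T : Set (𝓞 L)) :
    cls (∏ l ∈ S, l) T ≤ ∏ l ∈ S, cls l T := by
  classical
  induction S using Finset.induction_on with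
  | empty => simpa using cls_one T
  | insert p S hp ih =>
    rw [Finset.prod_insert hp, Finset.prod_insert hp]
    have hS' : ∀ l ∈ S, l.Prime := fun l hl => hS l (Finset.mem_insert_of_mem hl)
    have hpp := hS p (Finset.mem_insert_self _ _)
    refine (cls_mul hpp.ne_zero (Finset.prod_ne_zero_iff.mpr fun l hl => (hS' l hl).ne_zero) ?_ T).trans
      (Nat.mul_le_mul_left _ (ih hS'))
    refine Nat.Coprime.prod_right fun l hl => ?_
    rw [Nat.coprime_primes hpp (hS' l hl)]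
    rintro rfl
    exact hp hl

/-- translation and scaling -/
lemma cls_shift {l s : ℕ} (hl : l.Prime) (hs : ¬ l ∣ s) (r : 𝓞 L) (T : Set (𝓞 L)) :
    cls l {β : 𝓞 L | r + (s : 𝓞 L) * β ∈ T} ≤ cls l T := by
  have := fin_quot (L := L) hl.ne_zero
  refine cls_le_of _ (fun β => Ideal.Quotient.mk (Ideal.span {(l : 𝓞 L)}) (r + (s : 𝓞 L) * β)) _
    (Set.toFinite _) (fun β hβ => ⟨_, hβ, rfl⟩) (fun x _ y _ hxy => ?_)
  rw [mk_eq_iff] at hxy
  have e : r + (s : 𝓞 L) * x - (r + s * y) = s * (x - y) := by ring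
  rw [e] at hxy
  have h3 : IsCoprime (l : 𝓞 L) (s : 𝓞 L) := by
    have h4 : IsCoprime (l : ℤ) (s : ℤ) :=
      Nat.isCoprime_iff_coprime.mpr ((Nat.Prime.coprime_iff_not_dvd hl).mpr hs)
    have h5 := h4.map (Int.castRingHom (𝓞 L))
    simpa using h5
  exact h3.dvd_of_dvd_mul_left hxy

open Classical in
/-- the number of the classes modulo `l` of the units at `l` -/
lemma cls_unit {l : ℕ} (hl : l.Prime) (hsq : Squarefree (Ideal.span {(l : 𝓞 L)})) :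
    (cls l {γ : 𝓞 L | ∀ v : HeightOneSpectrum (𝓞 L), Abv v l → γ ∉ v.asIdeal} : ℝ) ≤
      (l : ℝ) ^ Module.finrank ℚ L *
        (1 - (N1 L l : ℝ) / l + (Module.finrank ℚ L : ℝ) ^ 2 / (l : ℝ) ^ 2) := by
  have := Pool.Agent.Q247.EL.finite_VV L hl
  have : Fintype (Pool.Agent.Q247.EL.VV L l) := Fintype.ofFinite _
  have : ∀ v : Pool.Agent.Q247.EL.VV L l, Finite (𝓞 L ⧸ v.1.asIdeal) := Pool.Agent.Q247.EL.finite_k L
  obtain ⟨n, hn⟩ : ∃ n, n = Module.finrank ℚ L := ⟨_, rfl⟩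
  obtain ⟨r, hr⟩ : ∃ r, r = Fintype.card (Pool.Agent.Q247.EL.VV L l) := ⟨_, rfl⟩
  obtain ⟨N, hN⟩ : ∃ N, N = N1 L l := ⟨_, rfl⟩
  rw [← hn]
  have hl0 : (0 : ℝ) < l := by exact_mod_cast hl.pos
  have hl1 : (1 : ℝ) ≤ l := by exact_mod_cast hl.one_lt.le
  have hcardk := Pool.Agent.Q247.EL.prod_card L hl hsq
  have hcardk' : ∏ v : Pool.Agent.Q247.EL.VV L l, (Nat.card (𝓞 L ⧸ v.1.asIdeal) : ℝ) = (l : ℝ) ^ n := by
    rw [hn]
    exact_mod_cast hcardk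
  have hNW : N = (univ.filter (fun v : Pool.Agent.Q247.EL.VV L l =>
      Ideal.absNorm v.1.asIdeal = l)).card := by
    rw [hN]
    unfold N1
    rw [← Fintype.card_subtype, ← Nat.card_eq_fintype_card]
    refine Nat.card_congr
      { toFun := fun v => ⟨⟨v.1, ?_⟩, v.2⟩
        invFun := fun v => ⟨v.1.1, v.2⟩
        left_inv := fun v => rfl
        right_inv := fun v => rfl }
    have h := Ideal.absNorm_mem v.1.asIdeal
    rw [v.2] at h
    exact h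
  have hNr : N ≤ r := by
    rw [hNW, hr]
    exact card_filter_le _ _
  have hrn : r ≤ n := by
    have h1 : l ^ r ≤ l ^ n := by
      rw [hn, ← hcardk, hr, ← Finset.card_univ, ← prod_const]
      exact prod_le_prod' fun v _ => Pool.Agent.Q247.EL.le_card L hl v
    exact (Nat.pow_le_pow_iff_right hl.one_lt).1 h1
  have hA : cls l {γ : 𝓞 L | ∀ v : HeightOneSpectrum (𝓞 L), Abv v l → γ ∉ v.asIdeal} ≤
      (Pool.Agent.Q247.EL.S1 L l).ncard := by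
    refine cls_le_of _ (Pool.Agent.Q247.EL.Th L (l := l)) _ (Set.toFinite _) ?_ ?_
    · intro γ hγ v h0
      exact hγ v.1 v.2 ((Ideal.Quotient.eq_zero_iff_mem).1 h0)
    · intro x _ y _ hxy
      rw [← Ideal.mem_span_singleton, ← Pool.Agent.Q247.EL.iInf_VV L hl hsq, Ideal.mem_iInf]
      intro v
      exact (Ideal.Quotient.eq).1 (congrFun hxy v)
  have hD : ((Pool.Agent.Q247.EL.S1 L l).ncard : ℝ) ≤ (l : ℝ) ^ n * (1 - 1 / (l : ℝ)) ^ N := by
    refine (Pool.Agent.Q247.EL.S1_card L hl).trans (le_of_eq ?_)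
    rw [prod_mul_distrib, hcardk', ← prod_filter, prod_const, ← hNW]
  have hG := Pool.Agent.Q247.EL.bern (1 / (l : ℝ)) (by positivity) (by rw [div_le_one hl0]; exact hl1) N
  have hNn : (N : ℝ) ^ 2 ≤ (n : ℝ) ^ 2 := by
    have : (N : ℝ) ≤ n := by exact_mod_cast hNr.trans hrn
    exact pow_le_pow_left₀ (Nat.cast_nonneg _) this 2
  have hA' : (cls l {γ : 𝓞 L | ∀ v : HeightOneSpectrum (𝓞 L), Abv v l → γ ∉ v.asIdeal} : ℝ) ≤
      (Pool.Agent.Q247.EL.S1 L l).ncard := by exact_mod_cast hA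
  refine (hA'.trans hD).trans ?_
  refine mul_le_mul_of_nonneg_left ?_ (by positivity)
  have h8 : (N : ℝ) ^ 2 * (1 / (l : ℝ)) ^ 2 ≤ (n : ℝ) ^ 2 / (l : ℝ) ^ 2 := by
    rw [one_div, inv_pow, ← div_eq_mul_inv]
    exact div_le_div_of_nonneg_right hNn (by positivity)
  rw [← hN]
  have e2 : (N : ℝ) / l = N * (1 / l) := by ring
  rw [e2]
  linarith

lemma N1_le {l : ℕ} (hl : l.Prime) : N1 L l ≤ Module.finrank ℚ L := by
  exact (Pool.Agent.Q91.EL.ram L).2 l hl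

/-- small representatives -/
lemma reps (L : Type) [Field L] [NumberField L] : ∃ C1 : ℝ, 1 ≤ C1 ∧ ∀ s : ℕ, s ≠ 0 → ∀ γ : 𝓞 L,
    ∃ r : 𝓞 L, (∀ σ : L →+* ℂ, ‖σ (r : L)‖ ≤ C1 * s) ∧ (s : 𝓞 L) ∣ γ - r := by
  classical
  set b := RingOfIntegers.basis L with hb
  refine ⟨1 + ∑ i, ∑ σ : L →+* ℂ, ‖σ ((b i : 𝓞 L) : L)‖, ?_, ?_⟩
  · have : 0 ≤ ∑ i, ∑ σ : L →+* ℂ, ‖σ ((b i : 𝓞 L) : L)‖ :=
      Finset.sum_nonneg fun i _ => Finset.sum_nonneg fun σ _ => norm_nonneg _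
    linarith
  intro s hs γ
  have hs0 : (0 : ℤ) < s := by exact_mod_cast Nat.pos_of_ne_zero hs
  have hsR : (0 : ℝ) ≤ s := Nat.cast_nonneg _
  refine ⟨∑ i, ((b.repr γ i % (s : ℤ) : ℤ) : 𝓞 L) * b i, fun σ => ?_, ?_⟩
  · have e1 : ((∑ i, ((b.repr γ i % (s : ℤ) : ℤ) : 𝓞 L) * b i : 𝓞 L) : L) =
        ∑ i, ((b.repr γ i % (s : ℤ) : ℤ) : L) * ((b i : 𝓞 L) : L) := by
      have := map_sum (algebraMap (𝓞 L) L) (fun i => ((b.repr γ i % (s : ℤ) : ℤ) : 𝓞 L) * b i) univ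
      refine this.trans (Finset.sum_congr rfl fun i _ => ?_)
      rw [map_mul, map_intCast]
    rw [e1, map_sum]
    refine (norm_sum_le _ _).trans ?_
    have e2 : ∀ i, ‖σ (((b.repr γ i % (s : ℤ) : ℤ) : L) * ((b i : 𝓞 L) : L))‖ ≤
        (∑ σ : L →+* ℂ, ‖σ ((b i : 𝓞 L) : L)‖) * s := by
      intro i
      rw [map_mul, map_intCast, norm_mul, mul_comm]
      have h1 : ‖σ ((b i : 𝓞 L) : L)‖ ≤ ∑ σ : L →+* ℂ, ‖σ ((b i : 𝓞 L) : L)‖ :=
        Finset.single_le_sum (f := fun σ : L →+* ℂ => ‖σ ((b i : 𝓞 L) : L)‖)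
          (fun σ _ => norm_nonneg _) (Finset.mem_univ σ)
      have h2 : ‖((b.repr γ i % (s : ℤ) : ℤ) : ℂ)‖ ≤ s := by
        have h3 := Int.emod_nonneg (b.repr γ i) hs0.ne'
        have h4 := Int.emod_lt_of_pos (b.repr γ i) hs0
        rw [Complex.norm_intCast, abs_of_nonneg (by exact_mod_cast h3)]
        have h5 : ((b.repr γ i % (s : ℤ) : ℤ) : ℝ) ≤ ((s : ℤ) : ℝ) := by exact_mod_cast h4.le
        simpa using h5
      exact mul_le_mul h1 h2 (norm_nonneg _) (le_trans (norm_nonneg _) h1)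
    refine (Finset.sum_le_sum fun i _ => e2 i).trans ?_
    rw [← Finset.sum_mul, add_mul]
    linarith
  · have e3 : γ = ∑ i, (b.repr γ i : 𝓞 L) * b i := by
      conv_lhs => rw [← b.sum_repr γ]
      exact Finset.sum_congr rfl fun i _ => by rw [zsmul_eq_mul]
    have e4 := congrArg (fun x => x - ∑ i, ((b.repr γ i % (s : ℤ) : ℤ) : 𝓞 L) * b i) e3
    rw [e4, ← Finset.sum_sub_distrib]
    refine Finset.dvd_sum fun i _ => ?_
    rw [← sub_mul, ← Int.cast_sub]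
    refine Dvd.dvd.mul_right ?_ _
    have h6 : (s : ℤ) ∣ b.repr γ i - b.repr γ i % (s : ℤ) := Int.dvd_self_sub_of_emod_eq rfl
    obtain ⟨k, hk⟩ := h6
    rw [hk]
    push_cast
    exact Dvd.intro _ rfl

end

end Pool.Agent.Q86.ZC
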