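import Pool.Agent.Q51.ZC.Stm
import Pool.Agent.Q239.EL.DESC
import Pool.Agent.Q51.SE.Cl

/-!
# Project ZC (helper51), job GRP: boundedly many classes
-/

set_option autoImplicit false

namespace Pool.Agent.Q86.ZC

open Polynomial NumberField IsDedekindDomain Finset
open Pool.Agent.Q51.EL Pool.Agent.Q51.SE Pool.Agent.Q51.ZC Pool.Agent.Q239.EL

section
variable {L : Type} [Field L] [NumberField L]

/-- the valuation of a natural number at a place above `l` -/
lemma val_nat_one {l p : ℕ} (hl : l.Prime) (hp : p.Prime) {v : HeightOneSpectrum (𝓞 L)}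
    (hv : Abv v l) (hne : p ≠ l) : v.valuation L (p : L) = 1 := by
  rw [← nat_coe]
  apply (HeightOneSpectrum.valuation_eq_one_iff_notMem v).mpr
  intro h
  exact hne (prime_unique hp hl h hv)

lemma val_nat_self {l : ℕ} (hl : l.Prime) (hs : Squarefree (Ideal.span {(l : 𝓞 L)}))
    {v : HeightOneSpectrum (𝓞 L)} (hv : Abv v l) :
    v.valuation L (l : L) = WithZero.exp (-1 : ℤ) := by
  have : Fact l.Prime := ⟨hl⟩
  have hl0 : (l : 𝓞 L) ≠ 0 := by exact_mod_cast hl.ne_zero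
  rw [← nat_coe, val_int v hl0, mu_l hs hv]
  norm_num

/-- adjusting by a rational number -/
lemma ratc {q B0 : ℕ} (hs : ∀ l : ℕ, l.Prime → ¬ l ∣ B0 → Squarefree (Ideal.span {(l : 𝓞 L)}))
    {δ : L} (hδ : δ ≠ 0) (T : HeightOneSpectrum (𝓞 L) → ℤ)
    (hT : {v : HeightOneSpectrum (𝓞 L) | T v ≠ 0}.Finite)
    (h : ∀ l : ℕ, l.Prime → ¬ l ∣ B0 → ∃ e : ℤ, ∀ v : HeightOneSpectrum (𝓞 L), Abv v l →
      Parq q v δ (T v + e)) :
    ∃ c : ℚ, c ≠ 0 ∧ ∀ v : HeightOneSpectrum (𝓞 L), (B0 : 𝓞 L) ∉ v.asIdeal →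
      Parq q v ((c : L) * δ) (T v) := by
  classical
  have hfin : {l : ℕ | (l.Prime ∧ ¬ l ∣ B0) ∧
      ∃ v : HeightOneSpectrum (𝓞 L), (v.valuation L δ ≠ 1 ∨ T v ≠ 0) ∧ bl v = l}.Finite := by
    refine (((supp_finite hδ).union hT).image bl).subset ?_
    rintro l ⟨-, v, hv, hvl⟩
    exact ⟨v, hv, hvl⟩
  set S := hfin.toFinset with hS
  have hSm : ∀ l, l ∈ S ↔ (l.Prime ∧ ¬ l ∣ B0) ∧
      ∃ v : HeightOneSpectrum (𝓞 L), (v.valuation L δ ≠ 1 ∨ T v ≠ 0) ∧ bl v = l :=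
    fun l => hfin.mem_toFinset
  let ee : ℕ → ℤ := fun l => if h1 : l.Prime ∧ ¬ l ∣ B0 then (h l h1.1 h1.2).choose else 0
  have hee : ∀ l, l.Prime → ¬ l ∣ B0 → ∀ v : HeightOneSpectrum (𝓞 L), Abv v l →
      Parq q v δ (T v + ee l) := by
    intro l hl hlB
    have h1 : ee l = (h l hl hlB).choose := dif_pos ⟨hl, hlB⟩
    rw [h1]
    exact (h l hl hlB).choose_spec
  refine ⟨∏ l ∈ S, (l : ℚ) ^ (-ee l), ?_, fun v hv => ?_⟩
  · refine Finset.prod_ne_zero_iff.mpr fun l hl => zpow_ne_zero _ ?_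
    exact_mod_cast ((hSm l).mp hl).1.1.ne_zero
  have hbl := bl_prime v
  have hbv := bl_abv v
  have hblB : ¬ bl v ∣ B0 := by
    rintro ⟨m, hm⟩
    apply hv
    rw [hm, Nat.cast_mul]
    exact Ideal.mul_mem_right _ _ hbv
  have hcast : ((∏ l ∈ S, (l : ℚ) ^ (-ee l) : ℚ) : L) = ∏ l ∈ S, (l : L) ^ (-ee l) := by
    push_cast
    rfl
  have hone : ∀ l ∈ S, l ≠ bl v → v.valuation L ((l : L) ^ (-ee l)) = 1 := by
    intro l hl hne
    rw [map_zpow₀, val_nat_one hbl ((hSm l).mp hl).1.1 hbv hne, one_zpow]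
  by_cases hin : bl v ∈ S
  · obtain ⟨k, hk⟩ := hee (bl v) hbl hblB v hbv
    refine ⟨k, ?_⟩
    rw [map_mul, hcast, map_prod, Finset.prod_eq_single_of_mem (bl v) hin hone, map_zpow₀,
      val_nat_self hbl (hs _ hbl hblB) hbv, hk, ← WithZero.exp_zsmul, ← WithZero.exp_add]
    congr 1
    simp
    ring
  · have h1 : v.valuation L δ = 1 ∧ T v = 0 := by
      by_contra hcon
      apply hin
      rw [hSm]
      refine ⟨⟨hbl, hblB⟩, v, ?_, rfl⟩
      by_contra h2
      push Not at h2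
      exact hcon h2
    refine ⟨0, ?_⟩
    rw [map_mul, hcast, map_prod, Finset.prod_eq_one (fun l hl =>
      hone l hl (fun h2 => hin (h2 ▸ hl))), h1.1, h1.2]
    simp

lemma parq_div {q : ℕ} {v : HeightOneSpectrum (𝓞 L)} {x y : L} {e e' : ℤ}
    (hx : Parq q v x e) (hy : Parq q v y e') : Parq q v (x / y) (e - e') := by
  obtain ⟨k, hk⟩ := hx
  obtain ⟨m, hm⟩ := hy
  refine ⟨k - m, ?_⟩
  rw [map_div₀, hk, hm, ← WithZero.exp_sub]
  congr 1
  ring

end

theorem grp (h1 : S_PRN) (h2 : S_SELF) : S_GRP := by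
  classical
  intro L _ _ q hq B0 hB0 hsq
  obtain ⟨B1, C, hB1, hC, hpr⟩ := h1 L
  choose g hg0 hg1 hg2 hg3 hg4 using hpr
  have hB : B0 * B1 ≠ 0 := mul_ne_zero hB0 hB1
  obtain ⟨F, hF⟩ := h2 L q hq (B0 * B1) hB
  have hFne : F.Nonempty := by
    obtain ⟨y, hy, -⟩ := hF 1 one_ne_zero (fun v _ => ⟨0, by simp⟩)
    exact ⟨y, hy⟩
  refine ⟨B0 * B1, F.card, C, hB, Dvd.intro _ rfl, hC, Finset.card_pos.mpr hFne, ?_⟩
  intro m M 𝒬 δ v0 hm hQ
  have hB0v : ∀ v : HeightOneSpectrum (𝓞 L), ((B0 * B1 : ℕ) : 𝓞 L) ∉ v.asIdeal →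
      (B0 : 𝓞 L) ∉ v.asIdeal ∧ (B1 : 𝓞 L) ∉ v.asIdeal := by
    intro v hv
    rw [Nat.cast_mul] at hv
    exact ⟨fun h => hv (Ideal.mul_mem_right _ _ h), fun h => hv (Ideal.mul_mem_left _ _ h)⟩
  set M' : HeightOneSpectrum (𝓞 L) → ℤ := fun v => if (m : 𝓞 L) ∈ v.asIdeal then M v else 0
    with hM'
  have hmv : ∀ (l : ℕ) (v : HeightOneSpectrum (𝓞 L)), l.Prime → Abv v l →
      ((m : 𝓞 L) ∈ v.asIdeal ↔ l ∣ m) := by
    intro l v hl hv
    have h3 := int_mem_iff hl hv (m : ℤ)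
    rw [Int.cast_natCast] at h3
    rw [h3]
    exact Int.natCast_dvd_natCast
  -- the normalized elements
  have key : ∀ p ∈ 𝒬, ∃ c : ℚ, c ≠ 0 ∧ ∀ v : HeightOneSpectrum (𝓞 L),
      ((B0 * B1 : ℕ) : 𝓞 L) ∉ v.asIdeal → Parq q v ((c : L) * δ p / (g (v0 p) : L)) (M' v) := by
    intro p hp
    obtain ⟨hpp, hpB, hpm, hδ, hA, hout, hin, e0, he0, he0'⟩ := hQ p hp
    obtain ⟨c, hc, hcv⟩ := ratc (q := q) hsq hδ
      (fun v => (if v = v0 p then 1 else 0) + M' v) (by
        refine ((Set.finite_singleton (v0 p)).union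
          (mem_finite (x := (m : 𝓞 L)) (by exact_mod_cast hm))).subset ?_
        intro v hv
        by_contra hcon
        rw [Set.mem_union, not_or] at hcon
        apply hv
        have h3 : ¬ v = v0 p := hcon.1
        have h4 : ¬ (m : 𝓞 L) ∈ v.asIdeal := hcon.2
        simp [hM', h3, h4]) (by
        intro l hl hlB
        by_cases hlp : l = p
        · subst hlp
          refine ⟨e0, fun v hv => ?_⟩
          have h3 : M' v = 0 := by
            simp only [hM']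
            rw [if_neg (fun h => hpm ((hmv l v hl hv).mp h))]
          rw [h3]
          by_cases hvv : v = v0 l
          · rw [if_pos hvv, hvv, add_zero, add_comm]
            exact he0
          · rw [if_neg hvv, add_zero, zero_add]
            exact he0' v hv hvv
        · have hvv : ∀ v : HeightOneSpectrum (𝓞 L), Abv v l → ¬ v = v0 p := by
            intro v hv h3
            rw [h3] at hv
            exact hlp (prime_unique hl hpp hv hA)
          by_cases hlm : l ∣ m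
          · obtain ⟨e, he⟩ := hin l hl hlB hlm
            refine ⟨e, fun v hv => ?_⟩
            have h3 : M' v = M v := by
              simp only [hM']
              rw [if_pos ((hmv l v hl hv).mpr hlm)]
            rw [h3, if_neg (hvv v hv), zero_add]
            exact he v hv
          · obtain ⟨e, he⟩ := hout l hl hlB hlm hlp
            refine ⟨e, fun v hv => ?_⟩
            have h3 : M' v = 0 := by
              simp only [hM']
              rw [if_neg (fun h => hlm ((hmv l v hl hv).mp h))]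
            rw [h3, if_neg (hvv v hv), zero_add, zero_add]
            exact he v hv)
    refine ⟨c, hc, fun v hv => ?_⟩
    obtain ⟨hv1, hv2⟩ := hB0v v hv
    have h3 : Parq q v (g (v0 p) : L) (if v = v0 p then 1 else 0) := by
      refine ⟨0, ?_⟩
      by_cases hvv : v = v0 p
      · rw [if_pos hvv, hvv, hg3 (v0 p) (hvv ▸ hv2)]
        norm_num
      · rw [if_neg hvv, (HeightOneSpectrum.valuation_eq_one_iff_notMem v).mpr
          (hg2 (v0 p) v hv2 hvv)]
        simp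
    have h4 := parq_div (hcv v hv1) h3
    simpa using h4
  rcases Set.eq_empty_or_nonempty 𝒬 with hemp | ⟨p0, hp0⟩
  · refine ⟨fun _ => ⟨0, Finset.card_pos.mpr hFne⟩, fun _ => 0, fun p hp => ?_⟩
    rw [hemp] at hp
    exact absurd hp (Set.notMem_empty p)
  choose! c hc0 hc1 using key
  have hgL : ∀ v, (g v : L) ≠ 0 := fun v => coe_ne (hg0 v)
  have hδ0 : ∀ p ∈ 𝒬, δ p ≠ 0 := fun p hp => (hQ p hp).2.2.2.1
  have hcL : ∀ p ∈ 𝒬, (c p : L) ≠ 0 := fun p hp => by
    have := hc0 p hp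
    exact_mod_cast this
  set z : ℕ → L := fun p => (c p : L) * δ p / (g (v0 p) : L) with hz
  have hz0 : ∀ p ∈ 𝒬, z p ≠ 0 := fun p hp =>
    div_ne_zero (mul_ne_zero (hcL p hp) (hδ0 p hp)) (hgL _)
  have hcl : ∀ p ∈ 𝒬, ∃ y ∈ F, ∃ η : L, η ≠ 0 ∧ z p / z p0 = y * η ^ q := by
    intro p hp
    refine hF _ (div_ne_zero (hz0 p hp) (hz0 p0 hp0)) fun v hv => ?_
    have h3 := parq_div (hc1 p hp v hv) (hc1 p0 hp0 v hv)
    rw [sub_self] at h3
    exact h3
  choose! y hyF η hη hyη using hcl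
  let eF : F ≃ Fin F.card := F.equivFin
  refine ⟨fun p => if hp : p ∈ 𝒬 then eF ⟨y p, hyF p hp⟩ else ⟨0, Finset.card_pos.mpr hFne⟩,
    fun p => g (v0 p), fun p hp => ⟨hg0 _, hg1 _, fun v hv hvv => hg2 _ v (hB0v v hv).2 hvv,
      fun σ => hg4 _ σ, fun p' hp' hκ => ?_⟩⟩
  simp only [dif_pos hp, dif_pos hp'] at hκ
  have hyy : y p = y p' := by
    have := eF.injective hκ
    exact congrArg Subtype.val this
  have e1 := hyη p hp
  have e2 := hyη p' hp'
  rw [← hyy] at e2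
  have hy0 : y p ≠ 0 := by
    intro h0
    rw [h0, zero_mul] at e1
    exact div_ne_zero (hz0 p hp) (hz0 p0 hp0) e1
  refine ⟨c p / c p', η p' / η p, div_ne_zero (hc0 p hp) (hc0 p' hp'),
    div_ne_zero (hη p' hp') (hη p hp), ?_⟩
  have e3 : z p' * η p ^ q = z p * η p' ^ q := by
    have h3 : z p' = y p * η p' ^ q * z p0 := by
      rw [← e2, div_mul_cancel₀ _ (hz0 p0 hp0)]
    have h4 : z p = y p * η p ^ q * z p0 := by
      rw [← e1, div_mul_cancel₀ _ (hz0 p0 hp0)]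
    rw [h3, h4]
    ring
  simp only [hz] at e3
  have a1 := hgL (v0 p)
  have a2 := hgL (v0 p')
  have a3 := hcL p' hp'
  have a4 := hη p hp
  rw [div_pow]
  push_cast
  field_simp at e3 ⊢
  linear_combination -e3

end Pool.Agent.Q86.ZC
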